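import Pool.Agent.Helper821.PY.MainK

/-!
# The question of Plichko and Yost has a negative answer (real and complex scalars)

There is a nonseparable Banach space `X` (over `ℝ` and over `ℂ`) with the Radon-Nikodym property
such that every bounded projection on `X` with separable range has finite rank.

Sketch of the proof. The real space is the completion of a space generated by finite-dimensional
pieces (isomorphic to `ℓ^∞_n`) indexed by codes. A block is given by a sequence of generators
spanning a separable subspace `Y'` (with its finite-dimensional subspaces `Y'_j`), by a chain
`E_0 ⊂ E_1 ⊂ ...` of spaces `E_j ≅ ℓ^∞_{n_j}` containing `Y'_j` (a pushout chain in the style of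
Bourgain-Delbaen and Bourgain-Pisier) and by well-founded relations; the nodes of the
corresponding well-founded trees carry copies of the spaces `E_j`.
* If `P` is a projection with separable infinite-dimensional range then the tree of bounded
  coherent extensions of the restrictions of `P` to the spaces `E_j` is well-founded because `X`
  has the Radon-Nikodym property (a slice argument); the nodes of the block of this tree would
  produce an infinite branch of it: contradiction.
* The Radon-Nikodym property: blocks are attached with a small constant, so `X` is a small
  perturbation (the kernels of two quotient maps are close) of an `ℓ¹`-sum of well-founded tree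
  amalgams of finite-dimensional spaces. These satisfy a stability property for approximate
  martingales which passes through `ℓ¹`-sums and finite-dimensional kernels without loss of
  constants, and survives the perturbation.
* For complex scalars one takes the complexification; the argument for projections works for
  pairs of operators.
-/

namespace Pool.Agent.Results.MP_9b69f3_an.PlichkoYost

/-- `S` is a slice of `A`: a nonempty intersection of `A` with an open half-space
`{x | Re f(x) > c}`. -/
def IsSlice (𝕜 : Type) [RCLike 𝕜] {X : Type*} [NormedAddCommGroup X] [NormedSpace 𝕜 X]
    (A S : Set X) : Prop :=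
  S.Nonempty ∧ ∃ (f : X →L[𝕜] 𝕜) (c : ℝ), S = A ∩ {x | c < RCLike.re (f x)}

/-- `X` has the Radon-Nikodym property: every nonempty bounded subset of `X` is dentable, that is,
has slices of arbitrarily small diameter. -/
def HasRNP (𝕜 : Type) [RCLike 𝕜] (X : Type*) [NormedAddCommGroup X] [NormedSpace 𝕜 X] : Prop :=
  ∀ A : Set X, A.Nonempty → Bornology.IsBounded A →
    ∀ ε : ℝ, 0 < ε → ∃ S : Set X, IsSlice 𝕜 A S ∧ Metric.diam S < ε

/-- For real and for complex scalars: there is a nonseparable Banach space with the Radon-Nikodym
property on which every bounded projection with separable range has finite rank. -/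
theorem result (𝕜 : Type) [RCLike 𝕜] :
    ∃ (X : Type) (_ : NormedAddCommGroup X) (_ : NormedSpace 𝕜 X),
      CompleteSpace X ∧ ¬ TopologicalSpace.SeparableSpace X ∧ HasRNP 𝕜 X ∧
      ∀ P : X →L[𝕜] X, P ∘L P = P → TopologicalSpace.IsSeparable (Set.range P) →
        FiniteDimensional 𝕜 (LinearMap.range (P : X →ₗ[𝕜] X)) :=
  PY.mainK 𝕜

end Pool.Agent.Results.MP_9b69f3_an.PlichkoYost
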