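import Pool.Agent.Helper821.PY.Main

/-!
# The question of Plichko and Yost has a negative answer (real scalars)

There is a nonseparable real Banach space `X` with the Radon-Nikodym property such that every
bounded projection on `X` with separable range has finite rank.

Sketch of the proof. `X` is the completion of a space generated by finite-dimensional pieces
(isomorphic to `ℓ^∞_n`) indexed by codes. A block is given by a sequence of generators spanning a
separable subspace `Y'` (with its finite-dimensional subspaces `Y'_j`), by a chain
`E_0 ⊂ E_1 ⊂ ...` of spaces `E_j ≅ ℓ^∞_{n_j}` containing `Y'_j` (a pushout chain in the style of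
Bourgain-Delbaen and Bourgain-Pisier) and by a well-founded relation; the nodes of the
corresponding well-founded tree carry copies of the spaces `E_j`.
* If `P` is a projection with separable infinite-dimensional range then the tree of bounded
  coherent extensions of the restrictions of `P` to the spaces `E_j` is well-founded because `X`
  has the Radon-Nikodym property (a slice argument); the nodes of the block of this tree would
  produce an infinite branch of it: contradiction.
* The Radon-Nikodym property: blocks are attached with a small constant, so `X` is a small
  perturbation (the kernels of two quotient maps are close) of an `ℓ¹`-sum of well-founded tree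
  amalgams of finite-dimensional spaces. These satisfy a stability property for approximate
  martingales which passes through `ℓ¹`-sums and finite-dimensional kernels without loss of
  constants, and survives the perturbation.
-/

namespace Pool.Agent.Results.MP_9b69f3_an.PlichkoYostReal

/-- `S` is a slice of `A`: a nonempty intersection of `A` with an open half-space. -/
def IsSlice {X : Type*} [NormedAddCommGroup X] [NormedSpace ℝ X] (A S : Set X) : Prop :=
  S.Nonempty ∧ ∃ (f : X →L[ℝ] ℝ) (c : ℝ), S = A ∩ {x | c < f x}

/-- `X` has the Radon-Nikodym property: every nonempty bounded subset of `X` is dentable, that is,
has slices of arbitrarily small diameter. -/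
def HasRNP (X : Type*) [NormedAddCommGroup X] [NormedSpace ℝ X] : Prop :=
  ∀ A : Set X, A.Nonempty → Bornology.IsBounded A →
    ∀ ε : ℝ, 0 < ε → ∃ S : Set X, IsSlice A S ∧ Metric.diam S < ε

/-- There is a nonseparable real Banach space with the Radon-Nikodym property on which every
bounded projection with separable range has finite rank. -/
theorem result : ∃ (X : Type) (_ : NormedAddCommGroup X) (_ : NormedSpace ℝ X),
    CompleteSpace X ∧ ¬ TopologicalSpace.SeparableSpace X ∧ HasRNP X ∧
      ∀ P : X →L[ℝ] X, P ∘L P = P → TopologicalSpace.IsSeparable (Set.range P) →
        FiniteDimensional ℝ (LinearMap.range (P : X →ₗ[ℝ] X)) :=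
  PY.main

end Pool.Agent.Results.MP_9b69f3_an.PlichkoYostReal
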